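import Mathlib
import Pool.Agent.Helper10.BK.Bridge
import Pool.Agent.Helper5.NE.Final
import Pool.Agent.Helper5.NE.KillEx
import Pool.Agent.Helper96.NE.Gap
import Pool.Agent.Helper8.NE.QE
import Pool.Agent.Helper17.NE5.Transfer
import Pool.Agent.Helper28.NE.QEForm
import Pool.Agent.Helper64.NE.State
import Pool.Agent.Helper64.NE.Form
import Pool.Agent.Helper8.NE.Kesten
import Pool.Agent.Helper40.NE.PartA
import Pool.Agent.Helper88.NE.Sel
import Pool.Agent.Helper91.NE.PartB
import Pool.Agent.Helper13.NE.Blk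
import Pool.Agent.Helper77.NE.Fact
import Pool.Agent.Helper11.NE.RotMain
import Pool.Agent.Helper27.NE.Exact
import Pool.Agent.Helper22.NE.Small

/-!
# MP_d99be0_an: a nonseparable exact C*-algebra which embeds in no nuclear C*-algebra

There is a unital, nonseparable, exact C*-algebra `A` such that no nuclear C*-algebra, in any
universe, contains a C*-subalgebra isomorphic to `A`.

`A` is exact: it has a faithful representation on a Hilbert space which is a nuclear map (Kirchberg;
Brown-Ozawa, Definition 2.3.2).  `C` is nuclear: its identity map is nuclear (the completely positive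
approximation property; Choi-Effros, Kirchberg; Brown-Ozawa, Definition 2.3.1).  Completely positive
maps are those of Mathlib.
-/

set_option autoImplicit false

namespace Pool.Agent.Results.MP_d99be0_an.NonseparableExact

universe u v w

open scoped CStarAlgebra

/-- A map between C*-algebras is *nuclear* if, in norm on every finite set, it is approximated by
maps `ψ ∘ φ` with `φ : A → D` and `ψ : D → B` completely positive and contractive and `D` a
finite-dimensional C*-algebra. -/
def NuclearMap {A : Type u} {B : Type v} [NonUnitalCStarAlgebra A] [PartialOrder A]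
    [StarOrderedRing A] [NonUnitalCStarAlgebra B] [PartialOrder B] [StarOrderedRing B]
    (θ : A → B) : Prop :=
  ∀ (F : Finset A) (ε : ℝ), 0 < ε →
    ∃ (D : Type w) (_ : CStarAlgebra D) (_ : PartialOrder D) (_ : StarOrderedRing D)
      (_ : FiniteDimensional ℂ D) (φ : A →CP D) (ψ : D →CP B),
      (∀ a, ‖φ a‖ ≤ ‖a‖) ∧ (∀ d, ‖ψ d‖ ≤ ‖d‖) ∧ ∀ a ∈ F, ‖ψ (φ a) - θ a‖ < ε

/-- A C*-algebra is *nuclear* if its identity map is nuclear. -/
def IsNuclear (C : Type u) [NonUnitalCStarAlgebra C] [PartialOrder C] [StarOrderedRing C] : Prop :=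
  NuclearMap.{u, u, w} (fun c : C => c)

/-- A C*-algebra is *exact* if it has a faithful representation on a Hilbert space which is a
nuclear map. -/
def IsExact (A : Type u) [NonUnitalCStarAlgebra A] [PartialOrder A] [StarOrderedRing A] : Prop :=
  ∃ (H : Type u) (_ : NormedAddCommGroup H) (_ : InnerProductSpace ℂ H) (_ : CompleteSpace H)
    (π : A →⋆ₙₐ[ℂ] (H →L[ℂ] H)), Function.Injective π ∧ NuclearMap.{u, u, 0} π

open Pool.Agent.Helper5.NE Pool.Agent.Helper10.BK in
theorem main :
    ∃ (A : Type) (_ : CStarAlgebra A) (_ : PartialOrder A) (_ : StarOrderedRing A),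
      ¬ TopologicalSpace.SeparableSpace A ∧ IsExact A ∧
      ∀ (C : Type) [NonUnitalCStarAlgebra C], CPAPu C → ∀ ι : A →⋆ₙₐ[ℂ] C,
        ¬ Function.Injective ι := by
  have hQE : QEStmt := Pool.Agent.Helper8.NE.qe Pool.Agent.Helper96.NE.gap
  have hQF : QEFormStmt := qeForm hQE Pool.Agent.Helper17.NE5.transfer
  have hFact : FactStmt := Pool.Agent.Helper77.NE.fact Pool.Agent.Helper13.NE.blk
  have hEx : ExactStmt := exact hFact Pool.Agent.Helper11.NE.rotStmt nnAlg
  obtain ⟨F, A, bd, had, hev, hno⟩ := no_embedding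
    (Pool.Agent.Helper64.NE.form Pool.Agent.Helper64.NE.state)
    Pool.Agent.Helper64.NE.formGood
    (partA Pool.Agent.Helper8.NE.kesten Pool.Agent.Helper64.NE.formGood)
    (killEx Pool.Agent.Helper88.NE.sel hQF)
    Pool.Agent.Helper91.NE.partB
    Pool.Agent.Helper22.NE.adFam Pool.Agent.Helper22.NE.code
  refine ⟨Alg A bd, StarSubalgebra.cstarAlgebra _, CStarAlgebra.spectralOrder _,
    CStarAlgebra.spectralOrderedRing _, Pool.Agent.Helper22.NE.nonSep F A bd, ?_, ?_⟩
  · refine ⟨L2 X, inferInstance, inferInstance, inferInstance, incS A bd, Subtype.val_injective, ?_⟩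
    intro G ε hε
    classical
    obtain ⟨D, iD, fD, φ, ψ, hφ, hψ, happ⟩ := hEx F A bd had hev (G.image Subtype.val)
      (by
        intro T hT
        obtain ⟨a, -, rfl⟩ := Finset.mem_image.1 hT
        exact a.2) ε hε
    have h1 : CCPu (φ.comp (incL A bd)) := incL_ccp A bd hφ
    have h2 : CCPu ψ := hψ
    let o : PartialOrder D := CStarAlgebra.spectralOrder D
    let r : StarOrderedRing D := CStarAlgebra.spectralOrderedRing D
    let o' : PartialOrder (Alg A bd) := CStarAlgebra.spectralOrder _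
    let r' : StarOrderedRing (Alg A bd) := CStarAlgebra.spectralOrderedRing _
    exact ⟨D, iD, o, r, fD, cpOf (φ.comp (incL A bd)) h1, cpOf ψ h2, h1.1, h2.1,
      fun a ha => happ _ (Finset.mem_image_of_mem _ ha)⟩
  · intro C _ hC ι hι
    refine hno C ι hι ?_
    intro G ε hε
    obtain ⟨f, hf⟩ := hC G ε hε
    exact ⟨f.D, f.iD, f.fD, f.φ, f.ψ, f.hφ, f.hψ, hf⟩

open Pool.Agent.Helper10.BK in
/-- **Theorem.** There is a nonseparable exact C*-algebra which embeds in no nuclear C*-algebra. -/
theorem result :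
    ∃ (A : Type) (_ : CStarAlgebra A) (_ : PartialOrder A) (_ : StarOrderedRing A),
      ¬ TopologicalSpace.SeparableSpace A ∧ IsExact A ∧
      ∀ (C : Type u) [NonUnitalCStarAlgebra C] [PartialOrder C] [StarOrderedRing C],
        IsNuclear.{u, w} C → ∀ ι : A →⋆ₙₐ[ℂ] C, ¬ Function.Injective ι := by
  obtain ⟨A, iA, oA, rA, hsep, hex, hno⟩ := main
  refine ⟨A, iA, oA, rA, hsep, hex, ?_⟩
  intro C _ _ _ hC ι hι
  have hC' : CPAPu C := cpapu_of hC
  obtain ⟨S, hcl, hsm, hsub, hS⟩ := exists_small hC' (Set.range ι) ⟨ι 0, 0, rfl⟩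
  obtain ⟨T, iT, e, he⟩ := exists_copy S
  refine hno T (cpap_copy e he hS)
    ((e.symm : S →⋆ₙₐ[ℂ] T).comp (NonUnitalStarAlgHom.codRestrict ι S fun a => hsub ⟨a, rfl⟩)) ?_
  intro a b hab
  have h1 : NonUnitalStarAlgHom.codRestrict ι S (fun a => hsub ⟨a, rfl⟩) a =
      NonUnitalStarAlgHom.codRestrict ι S (fun a => hsub ⟨a, rfl⟩) b := e.symm.injective hab
  exact hι (congrArg Subtype.val h1)

end Pool.Agent.Results.MP_d99be0_an.NonseparableExact
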